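import Pool.Agent.Q238.SH.Double

/-!
# MP_27090e_nt: the identity for the sharp sum of `(2, 1_{d-3}, bar 2)` holds iff `d` is even

An index string is a list of entries `(k, false)` (plain `k`) or `(k, true)` (barred `k`);
`euler s` is the limit of the sums over `0 < n_1 < ... < n_k ≤ M`, and `sharp s` is the
Euler sharp sum, both defined in `Pool.Agent.Q238.SH.Defs`.
-/

namespace Pool.Agent.Results.MP_27090e_nt.SharpIdentityIffEven

open Finset Filter Topology Q238.SH

/-- The string `(2, 1_{d-3}, bar 2)`. -/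
def idx (d : ℕ) : List Entry :=
  (2, false) :: (List.replicate (d - 3) (1, false) ++ [(2, true)])

/-- The truncated sums of `t` converge, to `euler t`. -/
def Conv (t : List Entry) : Prop :=
  Tendsto (fun M : ℕ => trunc t 0 M) atTop (𝓝 (euler t))

/-- The right side of the conjectured identity:
`ζ(d+1)/2 - 2 ∑ ζ(m, n)` over `m + n = d + 1`, `m ≥ 1`, `n ≥ 2`, `n` even. -/
noncomputable def rhs (d : ℕ) : ℝ :=
  1 / 2 * euler [(d + 1, false)]
    - 2 * ∑ p ∈ (antidiagonal (d + 1)).filter (fun p => 1 ≤ p.1 ∧ 2 ≤ p.2 ∧ Even p.2),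
        euler [(p.1, false), (p.2, false)]

lemma H_diff_eq (n : ℕ) : H (2 * n) - H n = ∑ i ∈ Ioc n (2 * n), 1 / (i : ℝ) := by
  unfold H
  rw [sub_eq_iff_eq_add, ← sum_union]
  · refine sum_congr ?_ fun _ _ => rfl
    ext i
    simp only [mem_Ioc, mem_union]
    omega
  · rw [disjoint_left]
    intro i
    simp only [mem_Ioc]
    omega

theorem result (d : ℕ) (hd : 3 ≤ d) :
    -- the identity holds exactly for even `d`
    (sharp (idx d) = rhs d ↔ Even d) ∧
    -- the value of the left side for every `d ≥ 3`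
    sharp (idx d) = -2 * ∑' n : ℕ, (∑ i ∈ Ioc n (2 * n), 1 / (i : ℝ)) / (n : ℝ) ^ d ∧
    -- for odd `d` the right side is `-ζ(d+1)`, and the left side is strictly smaller
    (Odd d → rhs d = - euler [(d + 1, false)] ∧ sharp (idx d) < rhs d) ∧
    -- all the Euler sums involved converge
    (∀ t ∈ strings (idx d), Conv t) ∧ Conv [(d + 1, false)] ∧
    (∀ m n : ℕ, 1 ≤ m → 2 ≤ n → Conv [(m, false), (n, false)]) := by
  have hidx : idx d = str (d - 3) ++ [(2, true)] := by simp [idx, str]
  have hval : sharp (idx d) = -2 * Lser d := by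
    rw [hidx, sharp_value]
    congr 2
    omega
  have hodd : Odd d → rhs d = - euler [(d + 1, false)] ∧ sharp (idx d) < rhs d := by
    intro h
    have h1 : rhs d = - euler [(d + 1, false)] := rhs_odd hd h
    refine ⟨h1, ?_⟩
    rw [h1, hval]
    have h2 := Lser_ge (d := d) (by omega)
    have h3 := zeta_lt (d := d) (by omega)
    linarith
  refine ⟨⟨?_, ?_⟩, ?_, hodd, ?_, ?_, ?_⟩
  · intro h
    by_contra hne
    exact (hodd (Nat.not_even_iff_odd.mp hne)).2.ne h
  · intro h
    rw [hval]
    exact (rhs_even hd h).symm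
  · rw [hval]
    unfold Lser
    simp only [H_diff_eq]
  · intro t ht
    refine tendsto_euler ?_
    refine adm_strings _ _ ?_ t ht
    have := adm_str (d - 3)
    rw [← hidx] at this
    exact this
  · exact tendsto_euler (adm_single (by change 2 ≤ d + 1; omega))
  · intro m n hm hn
    exact tendsto_euler (adm_cons hm (adm_single hn))

end Pool.Agent.Results.MP_27090e_nt.SharpIdentityIffEven
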